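import Mathlib

set_option autoImplicit false

open MeasureTheory Measure Module Set
open scoped Pointwise ENNReal RealInnerProductSpace

namespace Pool.Agent.MP_8228af_gt

variable {V : Type*} [NormedAddCommGroup V] [InnerProductSpace ℝ V] [FiniteDimensional ℝ V]
  [MeasurableSpace V] [BorelSpace V]

/-- The cone (union of the segments from the origin) over a set. -/
def cone (F : Set V) : Set V := (fun p : ℝ × V => p.1 • p.2) '' (Icc (0 : ℝ) 1 ×ˢ F)

omit [FiniteDimensional ℝ V] [MeasurableSpace V] [BorelSpace V] in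
theorem isCompact_cone {F : Set V} (hF : IsCompact F) : IsCompact (cone F) :=
  (isCompact_Icc.prod hF).image (by fun_prop)

/-- Cone formula with base in the hyperplane `⟪v, x⟫ = ‖v‖ ^ 2`. -/
theorem cone_volume_aux {F : Set V} (hF : IsCompact F) {v : V} (hv : v ≠ 0)
    (hFv : ∀ x ∈ F, ⟪v, x⟫ = ‖v‖ ^ 2) :
    volume (cone F) = ENNReal.ofReal (‖v‖ / finrank ℝ V) * μHE[finrank ℝ V - 1] F := by
  have hrk : 0 < finrank ℝ V := finrank_pos_iff_exists_ne_zero.2 ⟨v, hv⟩
  have hv2 : 0 < ‖v‖ ^ 2 := by positivity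
  rw [← InnerProductSpace.euclideanHausdorffMeasure_eq_volume,
    EuclideanGeometry.euclideanHausdorffMeasure_eq_lintegral (0 : V) hv
      (isCompact_cone hF).measurableSet]
  -- the slices
  have hslice : ∀ x : ℝ, x ≠ 0 →
      cone F ∩ (AffineSubspace.mk' (x • v +ᵥ (0 : V)) (ℝ ∙ v)ᗮ : Set V) =
        if x ∈ Icc (0 : ℝ) 1 then x • F else ∅ := by
    intro x hx0
    ext y
    simp only [vadd_eq_add, add_zero]
    constructor
    · rintro ⟨⟨⟨r, z⟩, ⟨hr, hz⟩, rfl⟩, hy⟩
      simp only at hr hz ⊢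
      have hy' : r • z - x • v ∈ (ℝ ∙ v)ᗮ := by
        have := AffineSubspace.mem_mk'.1 hy
        simpa using this
      rw [Submodule.mem_orthogonal_singleton_iff_inner_right, inner_sub_right, inner_smul_right,
        inner_smul_right, hFv z hz, real_inner_self_eq_norm_sq, ← sub_mul] at hy'
      have hrx : r = x := by
        rcases mul_eq_zero.1 hy' with h | h
        · linarith
        · exact absurd h hv2.ne'
      subst hrx
      rw [if_pos hr]
      exact smul_mem_smul_set hz
    · intro h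
      split_ifs at h with hx
      · obtain ⟨z, hz, rfl⟩ := h
        refine ⟨⟨(x, z), ⟨hx, hz⟩, rfl⟩, ?_⟩
        apply AffineSubspace.mem_mk'.2
        simp only [vsub_eq_sub]
        rw [Submodule.mem_orthogonal_singleton_iff_inner_right, inner_sub_right, inner_smul_right,
          inner_smul_right, hFv z hz, real_inner_self_eq_norm_sq, sub_self]
      · exact h.elim
  have hslice' : ∀ᵐ x : ℝ, μHE[finrank ℝ V - 1]
      (cone F ∩ (AffineSubspace.mk' (x • v +ᵥ (0 : V)) (ℝ ∙ v)ᗮ : Set V)) =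
      (Icc (0 : ℝ) 1).indicator
        (fun x => ENNReal.ofReal (x ^ (finrank ℝ V - 1)) * μHE[finrank ℝ V - 1] F) x := by
    have h0 : ∀ᵐ x : ℝ, x ≠ 0 := by
      have : volume ({0} : Set ℝ) = 0 := by simp
      exact measure_eq_zero_iff_ae_notMem.1 this
    filter_upwards [h0] with x hx
    rw [hslice x hx]
    by_cases h : x ∈ Icc (0 : ℝ) 1
    · rw [if_pos h, indicator_of_mem h, euclideanHausdorffMeasure_smul₀ _ hx, ENNReal.smul_def,
        smul_eq_mul]
      congr 1
      rw [ENNReal.ofReal, Real.toNNReal_pow h.1]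
      congr 2
      ext
      simp [abs_of_nonneg h.1, h.1]
    · rw [if_neg h, indicator_of_notMem h, measure_empty]
  rw [lintegral_congr_ae hslice', lintegral_indicator measurableSet_Icc,
    lintegral_mul_const _ (by fun_prop)]
  have hint : ∫⁻ x in Icc (0 : ℝ) 1, ENNReal.ofReal (x ^ (finrank ℝ V - 1)) =
      ENNReal.ofReal (1 / finrank ℝ V) := by
    rw [← ofReal_integral_eq_lintegral_ofReal]
    · congr 1
      rw [integral_Icc_eq_integral_Ioc, ← intervalIntegral.integral_of_le zero_le_one,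
        integral_pow]
      have h1 : finrank ℝ V - 1 + 1 = finrank ℝ V := by omega
      have h2 : ((finrank ℝ V - 1 : ℕ) : ℝ) + 1 = finrank ℝ V := by exact_mod_cast h1
      rw [h1, h2, one_pow, zero_pow (by omega), sub_zero]
    · exact (continuous_pow _).continuousOn.integrableOn_Icc
    · exact (ae_restrict_mem measurableSet_Icc).mono fun x hx => pow_nonneg hx.1 _
  rw [hint, ← mul_assoc]
  congr 1
  rw [← ofReal_norm, ← ENNReal.ofReal_mul (norm_nonneg _)]
  congr 1
  ring

/-- Cone formula with base in the hyperplane `⟪u, x⟫ = 1`. -/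
theorem measure_base {F : Set V} (hF : IsCompact F) {u : V} (hu : u ≠ 0)
    (hFu : ∀ x ∈ F, ⟪u, x⟫ = (1 : ℝ)) :
    μHE[finrank ℝ V - 1] F = ENNReal.ofReal (finrank ℝ V * ‖u‖) * volume (cone F) := by
  have hrk : 0 < finrank ℝ V := finrank_pos_iff_exists_ne_zero.2 ⟨u, hu⟩
  have hu0 : 0 < ‖u‖ := norm_pos_iff.2 hu
  have hn : ‖(‖u‖ ^ 2)⁻¹ • u‖ = ‖u‖⁻¹ := by
    rw [norm_smul, norm_inv, norm_pow, norm_norm]
    field_simp
  rw [cone_volume_aux hF (v := (‖u‖ ^ 2)⁻¹ • u) (by simp [hu]) ?_, ← mul_assoc, hn,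
    ← ENNReal.ofReal_mul (by positivity)]
  · have : (finrank ℝ V : ℝ) * ‖u‖ * (‖u‖⁻¹ / finrank ℝ V) = 1 := by
      have : (finrank ℝ V : ℝ) ≠ 0 := by positivity
      field_simp
    rw [this]
    simp
  · intro x hx
    rw [hn, inner_smul_left, hFu x hx]
    simp

end Pool.Agent.MP_8228af_gt
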