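import Mathlib

set_option autoImplicit false
set_option linter.unusedSimpArgs false

open Finset

namespace Pool.Agent.MP_8228af_gt

variable {V : Type*} [NormedAddCommGroup V] [InnerProductSpace ℝ V]

theorem norm_sq_identity (a b c : V) :
    ‖a + b‖ ^ 2 + ‖b + c‖ ^ 2 + ‖c + a‖ ^ 2 =
      ‖a‖ ^ 2 + ‖b‖ ^ 2 + ‖c‖ ^ 2 + ‖a + b + c‖ ^ 2 := by
  rw [norm_add_sq_real, norm_add_sq_real, norm_add_sq_real, norm_add_sq_real, norm_add_sq_real,
    inner_add_left, real_inner_comm a c]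
  ring

/-- Hlawka's inequality. -/
theorem hlawka (a b c : V) :
    ‖a + b‖ + ‖b + c‖ + ‖c + a‖ ≤ ‖a‖ + ‖b‖ + ‖c‖ + ‖a + b + c‖ := by
  have h1 : 0 ≤ ‖b‖ + ‖c‖ - ‖b + c‖ := by linarith [norm_add_le b c]
  have h2 : 0 ≤ ‖c‖ + ‖a‖ - ‖c + a‖ := by linarith [norm_add_le c a]
  have h3 : 0 ≤ ‖a‖ + ‖b‖ - ‖a + b‖ := by linarith [norm_add_le a b]
  have h4 : 0 ≤ ‖a‖ - ‖b + c‖ + ‖a + b + c‖ := by
    have : ‖b + c‖ ≤ ‖a + b + c‖ + ‖a‖ := by
      calc ‖b + c‖ = ‖(a + b + c) - a‖ := by congr 1; abel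
        _ ≤ _ := norm_sub_le _ _
    linarith
  have h5 : 0 ≤ ‖b‖ - ‖c + a‖ + ‖a + b + c‖ := by
    have : ‖c + a‖ ≤ ‖a + b + c‖ + ‖b‖ := by
      calc ‖c + a‖ = ‖(a + b + c) - b‖ := by congr 1; abel
        _ ≤ _ := norm_sub_le _ _
    linarith
  have h6 : 0 ≤ ‖c‖ - ‖a + b‖ + ‖a + b + c‖ := by
    have : ‖a + b‖ ≤ ‖a + b + c‖ + ‖c‖ := by
      calc ‖a + b‖ = ‖(a + b + c) - c‖ := by congr 1; abel
        _ ≤ _ := norm_sub_le _ _
    linarith
  have key := norm_sq_identity a b c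
  have hS : 0 ≤ ‖a‖ + ‖b‖ + ‖c‖ + ‖a + b + c‖ := by positivity
  rcases hS.eq_or_lt with hS | hS
  · have ha : ‖a‖ = 0 := by
      linarith [norm_nonneg a, norm_nonneg b, norm_nonneg c, norm_nonneg (a + b + c)]
    have hb : ‖b‖ = 0 := by
      linarith [norm_nonneg a, norm_nonneg b, norm_nonneg c, norm_nonneg (a + b + c)]
    have hc : ‖c‖ = 0 := by
      linarith [norm_nonneg a, norm_nonneg b, norm_nonneg c, norm_nonneg (a + b + c)]
    linarith
  · have h : 0 ≤ (‖a‖ + ‖b‖ + ‖c‖ + ‖a + b + c‖ - (‖a + b‖ + ‖b + c‖ + ‖c + a‖)) *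
        (‖a‖ + ‖b‖ + ‖c‖ + ‖a + b + c‖) := by
      have e : (‖a‖ + ‖b‖ + ‖c‖ + ‖a + b + c‖ - (‖a + b‖ + ‖b + c‖ + ‖c + a‖)) *
        (‖a‖ + ‖b‖ + ‖c‖ + ‖a + b + c‖) =
        (‖b‖ + ‖c‖ - ‖b + c‖) * (‖a‖ - ‖b + c‖ + ‖a + b + c‖) +
        (‖c‖ + ‖a‖ - ‖c + a‖) * (‖b‖ - ‖c + a‖ + ‖a + b + c‖) +
        (‖a‖ + ‖b‖ - ‖a + b‖) * (‖c‖ - ‖a + b‖ + ‖a + b + c‖) := by
        linear_combination (-1 : ℝ) * key
      rw [e]
      positivity
    have := nonneg_of_mul_nonneg_left h hS
    linarith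

/-- The number `1` or `-1` attached to a Boolean. -/
def sg (b : Bool) : ℝ := if b then 1 else -1

@[simp] theorem sg_not (b : Bool) : sg (!b) = - sg b := by cases b <;> simp [sg]

@[simp] theorem abs_sg (b : Bool) : |sg b| = 1 := by cases b <;> simp [sg]

theorem sg_mul_self (b : Bool) : sg b * sg b = 1 := by cases b <;> simp [sg]

variable {n : ℕ}

/-- flipping the signs outside (`f l = false`) a set of indices -/
def flip (f : Fin n → Bool) (e : Fin n → Bool) : Fin n → Bool := fun l => e l ^^ f l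

theorem flip_invol (f : Fin n → Bool) : Function.Involutive (flip f) := by
  intro e; funext l; simp [flip]

/-- Signed sums. -/
noncomputable def ss (x : Fin n → V) (e : Fin n → Bool) : V := ∑ l, sg (e l) • x l

theorem sum_flip (F : (Fin n → Bool) → ℝ) (f : Fin n → Bool) :
    ∑ e, F (flip f e) = ∑ e, F e :=
  Equiv.sum_comp (flip_invol f).toPerm F

theorem triple_le (x : Fin n → V) (i j k : Fin n) (hij : i ≠ j) (hik : i ≠ k) (hjk : j ≠ k) :
    2 ^ n * (‖x i‖ + ‖x j‖ + ‖x k‖) ≤ 2 * ∑ e, ‖ss x e‖ := by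
  classical
  -- sums over the triple
  set T : (Fin n → Bool) → V := fun e => sg (e i) • x i + sg (e j) • x j + sg (e k) • x k with hT
  have step1 : ∑ e, ‖T e‖ ≤ ∑ e, ‖ss x e‖ := by
    set f : Fin n → Bool := fun l => !(decide (l = i) || decide (l = j) || decide (l = k)) with hf
    have hle : ∀ e, 2 * ‖T e‖ ≤ ‖ss x e‖ + ‖ss x (flip f e)‖ := by
      intro e
      have heq : (2 : ℝ) • T e = ss x e + ss x (flip f e) := by
        unfold ss
        rw [← Finset.sum_add_distrib]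
        have : ∀ l, sg (e l) • x l + sg (flip f e l) • x l =
            (if l = i then (2 * sg (e i)) • x i else 0) + (if l = j then (2 * sg (e j)) • x j else 0)
              + (if l = k then (2 * sg (e k)) • x k else 0) := by
          intro l
          by_cases h1 : l = i
          · subst h1
            simp [flip, hf, hij, hik, ← add_smul, two_mul]
          · by_cases h2 : l = j
            · subst h2
              simp [flip, hf, hij.symm, hjk, ← add_smul, two_mul]
            · by_cases h3 : l = k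
              · subst h3
                simp [flip, hf, hik.symm, hjk.symm, ← add_smul, two_mul]
              · simp [flip, hf, h1, h2, h3]
        rw [Finset.sum_congr rfl fun l _ => this l]
        simp only [Finset.sum_add_distrib, Finset.sum_ite_eq', Finset.mem_univ, if_true]
        simp only [hT, smul_add, smul_smul]
      calc 2 * ‖T e‖ = ‖(2 : ℝ) • T e‖ := by rw [norm_smul]; simp
        _ = ‖ss x e + ss x (flip f e)‖ := by rw [heq]
        _ ≤ _ := norm_add_le _ _
    have h2 := Finset.sum_le_sum fun e (_ : e ∈ Finset.univ) => hle e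
    rw [← Finset.mul_sum, Finset.sum_add_distrib, sum_flip (fun e => ‖ss x e‖) f] at h2
    linarith
  have step2 : 2 ^ n * (‖x i‖ + ‖x j‖ + ‖x k‖) ≤ 2 * ∑ e, ‖T e‖ := by
    set fi : Fin n → Bool := fun l => decide (l = i)
    set fj : Fin n → Bool := fun l => decide (l = j)
    set fk : Fin n → Bool := fun l => decide (l = k)
    have hle : ∀ e, 2 * (‖x i‖ + ‖x j‖ + ‖x k‖) ≤
        ‖T (flip fi e)‖ + ‖T (flip fj e)‖ + ‖T (flip fk e)‖ + ‖T e‖ := by
      intro e
      have H := hlawka (T (flip fi e)) (T (flip fj e)) (T (flip fk e))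
      have e1 : T (flip fi e) + T (flip fj e) + T (flip fk e) = T e := by
        simp [hT, flip, fi, fj, fk, hij, hik, hjk, hij.symm, hik.symm, hjk.symm]
        abel
      have e2 : T (flip fi e) + T (flip fj e) = (2 * sg (e k)) • x k := by
        simp [hT, flip, fi, fj, fk, hij, hik, hjk, hij.symm, hik.symm, hjk.symm, two_mul, add_smul]
        abel
      have e3 : T (flip fj e) + T (flip fk e) = (2 * sg (e i)) • x i := by
        simp [hT, flip, fi, fj, fk, hij, hik, hjk, hij.symm, hik.symm, hjk.symm, two_mul, add_smul]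
        abel
      have e4 : T (flip fk e) + T (flip fi e) = (2 * sg (e j)) • x j := by
        simp [hT, flip, fi, fj, fk, hij, hik, hjk, hij.symm, hik.symm, hjk.symm, two_mul, add_smul]
        abel
      rw [e1, e2, e3, e4] at H
      simp only [norm_smul, norm_mul, Real.norm_eq_abs, abs_sg] at H
      norm_num at H
      linarith
    have h2 := Finset.sum_le_sum fun e (_ : e ∈ (Finset.univ : Finset (Fin n → Bool))) => hle e
    simp only [Finset.sum_add_distrib] at h2
    rw [sum_flip (fun e => ‖T e‖) fi, sum_flip (fun e => ‖T e‖) fj,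
      sum_flip (fun e => ‖T e‖) fk] at h2
    simp only [Finset.sum_const, Finset.card_univ, Fintype.card_fun, Fintype.card_bool,
      Fintype.card_fin, nsmul_eq_mul, Nat.cast_pow, Nat.cast_ofNat] at h2
    linarith
  linarith

/-- The averaged inequality: `3 * 2 ^ n * ∑ ‖x i‖ ≤ 2 * n * ∑_ε ‖∑ ε_i x_i‖` for `n ≥ 3`. -/
theorem avg_le (hn : 3 ≤ n) (x : Fin n → V) :
    3 * 2 ^ n * ∑ i, ‖x i‖ ≤ 2 * n * ∑ e, ‖ss x e‖ := by
  classical
  have : NeZero n := ⟨by omega⟩
  have h01 : (0 : Fin n) ≠ 1 := by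
    intro h; have := congrArg Fin.val h; simp [Fin.val_one', Nat.mod_eq_of_lt (show 1 < n by omega)] at this
  have h02 : (0 : Fin n) ≠ 2 := by
    intro h
    have := congrArg Fin.val h
    rw [Fin.val_zero] at this
    have h2 : ((2 : Fin n) : ℕ) = 2 % n := rfl
    rw [h2, Nat.mod_eq_of_lt (show 2 < n by omega)] at this
    omega
  have h12 : (1 : Fin n) ≠ 2 := by
    intro h
    have := congrArg Fin.val h
    rw [Fin.val_one', Nat.mod_eq_of_lt (show 1 < n by omega)] at this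
    have h2 : ((2 : Fin n) : ℕ) = 2 % n := rfl
    rw [h2, Nat.mod_eq_of_lt (show 2 < n by omega)] at this
    omega
  have h : ∀ i : Fin n, 2 ^ n * (‖x i‖ + ‖x (i + 1)‖ + ‖x (i + 2)‖) ≤ 2 * ∑ e, ‖ss x e‖ := by
    intro i
    apply triple_le x i (i + 1) (i + 2)
    · intro h; exact h01 (by simpa using h)
    · intro h; exact h02 (by have h' : (2 : Fin n) = 0 := by simpa using h
                             exact h'.symm)
    · intro h; exact h12 (by simpa using h)
  have h2 := Finset.sum_le_sum fun i (_ : i ∈ (Finset.univ : Finset (Fin n))) => h i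
  rw [← Finset.mul_sum] at h2
  simp only [Finset.sum_add_distrib, Finset.sum_const, Finset.card_univ, Fintype.card_fin,
    nsmul_eq_mul] at h2
  have e1 : ∑ i, ‖x (i + 1)‖ = ∑ i, ‖x i‖ := Equiv.sum_comp (Equiv.addRight (1 : Fin n)) fun i => ‖x i‖
  have e2 : ∑ i, ‖x (i + 2)‖ = ∑ i, ‖x i‖ := Equiv.sum_comp (Equiv.addRight (2 : Fin n)) fun i => ‖x i‖
  rw [e1, e2] at h2
  linarith

end Pool.Agent.MP_8228af_gt
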