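import Mathlib
import Pool.Agent.MP_8228af_gt.Hlawka
import Pool.Agent.MP_8228af_gt.Cone

set_option autoImplicit false

open MeasureTheory Measure Module Set
open scoped Pointwise ENNReal RealInnerProductSpace

namespace Pool.Agent.MP_8228af_gt

variable {n : ℕ}

/-- Euclidean space. -/
abbrev E (n : ℕ) : Type := EuclideanSpace ℝ (Fin n)

theorem finrank_E : finrank ℝ (E n) = n := by simp

/-- the adjoint of the inverse -/
noncomputable def M (L : E n ≃L[ℝ] E n) : E n →L[ℝ] E n :=
  ContinuousLinearMap.adjoint (L.symm : E n →L[ℝ] E n)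

theorem inner_M (L : E n ≃L[ℝ] E n) (u x : E n) : ⟪M L u, L x⟫ = ⟪u, x⟫ := by
  unfold M
  rw [ContinuousLinearMap.adjoint_inner_left]
  simp

theorem M_ne_zero (L : E n ≃L[ℝ] E n) {u : E n} (hu : u ≠ 0) : M L u ≠ 0 := by
  intro h
  have := inner_M L u u
  rw [h, inner_zero_left] at this
  exact hu (inner_self_eq_zero.1 this.symm)

theorem image_cone (L : E n ≃L[ℝ] E n) (F : Set (E n)) : cone (L '' F) = L '' cone F := by
  ext y
  constructor
  · rintro ⟨⟨r, z⟩, ⟨hr, ⟨x, hx, rfl⟩⟩, rfl⟩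
    exact ⟨r • x, ⟨(r, x), ⟨hr, hx⟩, rfl⟩, by simp⟩
  · rintro ⟨_, ⟨⟨r, x⟩, ⟨hr, hx⟩, rfl⟩, rfl⟩
    exact ⟨(r, L x), ⟨hr, ⟨x, hx, rfl⟩⟩, by simp⟩

theorem volume_image (L : E n ≃L[ℝ] E n) (F : Set (E n)) :
    volume (L '' F) = ENNReal.ofReal |(L : E n →L[ℝ] E n).det| * volume F :=
  addHaar_image_continuousLinearMap volume (L : E n →L[ℝ] E n) F

theorem meas_image (L : E n ≃L[ℝ] E n) {F : Set (E n)} (hF : IsCompact F) {u : E n} (hu : u ≠ 0)
    (hFu : ∀ x ∈ F, ⟪u, x⟫ = (1 : ℝ)) :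
    μHE[n - 1] (L '' F) = ENNReal.ofReal (n * ‖M L u‖) *
      (ENNReal.ofReal |(L : E n →L[ℝ] E n).det| * volume (cone F)) := by
  have h := measure_base (V := E n) (F := L '' F) (u := M L u) (hF.image L.continuous)
    (M_ne_zero L hu) (by
      rintro _ ⟨x, hx, rfl⟩
      rw [inner_M]
      exact hFu x hx)
  rw [finrank_E] at h
  rw [h, image_cone, volume_image]

/-- `ℓ¹` norm -/
noncomputable def N1 (x : E n) : ℝ := ∑ i, |x i|

theorem continuous_N1 : Continuous (N1 : E n → ℝ) := by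
  unfold N1
  fun_prop

theorem N1_nonneg (x : E n) : 0 ≤ N1 x := Finset.sum_nonneg fun _ _ => abs_nonneg _

theorem N1_smul (r : ℝ) (x : E n) : N1 (r • x) = |r| * N1 x := by
  unfold N1
  rw [Finset.mul_sum]
  exact Finset.sum_congr rfl fun i _ => by simp [abs_mul]

theorem N1_add_le (x y : E n) : N1 (x + y) ≤ N1 x + N1 y := by
  unfold N1
  rw [← Finset.sum_add_distrib]
  exact Finset.sum_le_sum fun i _ => by simpa using abs_add_le (x i) (y i)

theorem norm_le_N1 (x : E n) : ‖x‖ ≤ N1 x := by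
  rw [EuclideanSpace.norm_eq]
  apply Real.sqrt_le_iff.2 ⟨N1_nonneg x, ?_⟩
  unfold N1
  simp only [Real.norm_eq_abs]
  exact Finset.sum_sq_le_sq_sum_of_nonneg fun i _ => abs_nonneg _

theorem abs_le_N1 (x : E n) (i : Fin n) : |x i| ≤ N1 x :=
  Finset.single_le_sum (f := fun i => |x i|) (fun _ _ => abs_nonneg _) (Finset.mem_univ i)

/-- cross-polytope -/
def ball1 (n : ℕ) (r : ℝ) : Set (E n) := {x | N1 x ≤ r}

theorem isCompact_of_N1_le {F : Set (E n)} (hF : IsClosed F) {r : ℝ} (h : ∀ x ∈ F, N1 x ≤ r) :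
    IsCompact F := by
  refine Metric.isCompact_of_isClosed_isBounded hF ?_
  refine Metric.isBounded_closedBall.subset (s := F) (t := Metric.closedBall 0 r) ?_
  intro x hx
  rw [mem_closedBall_zero_iff]
  exact (norm_le_N1 x).trans (h x hx)

theorem isCompact_ball1 (r : ℝ) : IsCompact (ball1 n r) :=
  isCompact_of_N1_le (isClosed_le continuous_N1 continuous_const) fun _ h => h

/-- facets of the cross-polytope -/
def facet (e : Fin n → Bool) (r : ℝ) : Set (E n) :=
  {x | (∀ j, 0 ≤ sg (e j) * x j) ∧ ∑ j, sg (e j) * x j = r}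

theorem N1_eq {e : Fin n → Bool} {x : E n} (h : ∀ j, 0 ≤ sg (e j) * x j) :
    N1 x = ∑ j, sg (e j) * x j := by
  unfold N1
  refine Finset.sum_congr rfl fun j _ => ?_
  rw [← abs_of_nonneg (h j), abs_mul, abs_sg, one_mul]

theorem isClosed_facet (e : Fin n → Bool) (r : ℝ) : IsClosed (facet e r) := by
  have h1 : IsClosed {x : E n | ∀ j, 0 ≤ sg (e j) * x j} := by
    rw [ofPred_forall]
    exact isClosed_iInter fun j => isClosed_le continuous_const (by fun_prop)
  exact h1.inter (isClosed_eq (by fun_prop) continuous_const)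

theorem isCompact_facet (e : Fin n → Bool) (r : ℝ) : IsCompact (facet e r) :=
  isCompact_of_N1_le (isClosed_facet e r) fun _ hx => (N1_eq hx.1).trans_le hx.2.le

/-- The sign vector as a point. -/
noncomputable def sv (e : Fin n → Bool) : E n := ss (fun i => EuclideanSpace.single i (1 : ℝ)) e

theorem inner_sv (e : Fin n → Bool) (x : E n) : ⟪sv e, x⟫ = ∑ j, sg (e j) * x j := by
  unfold sv ss
  rw [sum_inner]
  refine Finset.sum_congr rfl fun j _ => ?_
  rw [inner_smul_left, EuclideanSpace.inner_single_left]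
  simp

theorem M_sv (L : E n ≃L[ℝ] E n) (e : Fin n → Bool) :
    M L (sv e) = ss (fun i => M L (EuclideanSpace.single i (1 : ℝ))) e := by
  unfold sv ss
  rw [_root_.map_sum]
  simp

theorem sv_ne_zero (hn : 0 < n) (e : Fin n → Bool) : sv e ≠ 0 := by
  intro h
  have h1 := inner_sv e (EuclideanSpace.single ⟨0, hn⟩ (1 : ℝ))
  rw [h, inner_zero_left] at h1
  simp at h1
  have := abs_sg (e ⟨0, hn⟩)
  rw [← h1] at this
  simp at this

/-- orthant piece of the cross-polytope -/
def orth (e : Fin n → Bool) (r : ℝ) : Set (E n) :=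
  {x | (∀ j, 0 ≤ sg (e j) * x j) ∧ N1 x ≤ r}

theorem smul_facet {e : Fin n → Bool} {r : ℝ} (hr : 0 < r) : r • facet e 1 = facet e r := by
  ext x
  rw [mem_smul_set_iff_inv_smul_mem₀ hr.ne']
  constructor
  · rintro ⟨h1, h2⟩
    refine ⟨fun j => ?_, ?_⟩
    · have := mul_nonneg hr.le (h1 j)
      have e1 : r * (sg (e j) * (r⁻¹ • x) j) = sg (e j) * x j := by
        simp; field_simp
      rwa [e1] at this
    · have : r * ∑ j, sg (e j) * (r⁻¹ • x) j = r := by rw [h2, mul_one]
      rw [← this, Finset.mul_sum]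
      refine Finset.sum_congr rfl fun j _ => ?_
      simp; field_simp
  · rintro ⟨h1, h2⟩
    refine ⟨fun j => ?_, ?_⟩
    · have := mul_nonneg (inv_nonneg.2 hr.le) (h1 j)
      have e1 : r⁻¹ * (sg (e j) * x j) = sg (e j) * (r⁻¹ • x) j := by
        simp; ring
      rwa [e1] at this
    · have : ∑ j, sg (e j) * (r⁻¹ • x) j = r⁻¹ * ∑ j, sg (e j) * x j := by
        rw [Finset.mul_sum]
        refine Finset.sum_congr rfl fun j _ => ?_
        simp; ring
      rw [this, h2, inv_mul_cancel₀ hr.ne']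

theorem facet_zero {e : Fin n → Bool} {x : E n} (h : x ∈ facet e 0) : x = 0 := by
  have h1 := N1_eq h.1
  rw [h.2] at h1
  have := norm_le_N1 x
  rw [h1] at this
  exact norm_le_zero_iff.1 this

theorem cone_facet (hn : 0 < n) (e : Fin n → Bool) : cone (facet e 1) = orth e 1 := by
  ext x
  constructor
  · rintro ⟨⟨r, z⟩, ⟨hr, hz⟩, rfl⟩
    refine ⟨fun j => ?_, ?_⟩
    · have := mul_nonneg hr.1 (hz.1 j)
      have e1 : r * (sg (e j) * z j) = sg (e j) * (r • z) j := by
        simp; ring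
      rwa [e1] at this
    · simp only
      rw [N1_smul, abs_of_nonneg hr.1, N1_eq hz.1, hz.2, mul_one]
      exact hr.2
  · rintro ⟨h1, h2⟩
    rcases (N1_nonneg x).eq_or_lt with h0 | h0
    · have hx : x = 0 := by
        have := norm_le_N1 x
        rw [← h0] at this
        exact norm_le_zero_iff.1 this
      subst hx
      refine ⟨(0, sg (e ⟨0, hn⟩) • EuclideanSpace.single ⟨0, hn⟩ (1 : ℝ)), ⟨⟨le_rfl, zero_le_one⟩,
        ⟨fun j => ?_, ?_⟩⟩, by simp⟩
      · simp only [PiLp.smul_apply, PiLp.single_apply, smul_eq_mul, mul_ite, mul_one, mul_zero]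
        split_ifs with h
        · subst h
          rw [sg_mul_self]; exact zero_le_one
        · exact le_rfl
      · simp only [PiLp.smul_apply, PiLp.single_apply, smul_eq_mul, mul_ite, mul_one, mul_zero]
        simp [sg_mul_self]
    · refine ⟨(N1 x, (N1 x)⁻¹ • x), ⟨⟨h0.le, h2⟩, ?_⟩, by simp [smul_smul, h0.ne']⟩
      rw [← mem_smul_set_iff_inv_smul_mem₀ h0.ne', smul_facet h0]
      exact ⟨h1, (N1_eq h1).symm⟩

/-- change signs of coordinates: a linear isometry -/
noncomputable def reflE (e : Fin n → Bool) : E n ≃ₗᵢ[ℝ] E n :=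
  LinearIsometryEquiv.piLpCongrRight 2 fun j => if e j then LinearIsometryEquiv.refl ℝ ℝ else
    LinearIsometryEquiv.neg ℝ

theorem reflE_apply (e : Fin n → Bool) (x : E n) (j : Fin n) : reflE e x j = sg (e j) * x j := by
  unfold reflE
  simp only [LinearIsometryEquiv.piLpCongrRight_apply]
  cases h : e j <;> simp [sg]

theorem volume_orth (e : Fin n → Bool) : volume (orth e 1) = volume (orth (fun _ : Fin n => true) 1) := by
  have h : orth e 1 = reflE e ⁻¹' orth (fun _ : Fin n => true) 1 := by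
    ext x
    simp only [orth, mem_ofPred_eq, mem_preimage, reflE_apply]
    have h1 : N1 (reflE e x) = N1 x := by
      unfold N1
      refine Finset.sum_congr rfl fun j _ => ?_
      rw [reflE_apply, abs_mul, abs_sg, one_mul]
    rw [h1]
    simp [sg]
  rw [h]
  exact (reflE e).measurePreserving.measure_preimage_emb
    (reflE e).toHomeomorph.measurableEmbedding _

theorem volume_ball1_le : volume (ball1 n 1) ≤ 2 ^ n * volume (orth (fun _ : Fin n => true) 1) := by
  have h : ball1 n 1 ⊆ ⋃ e : Fin n → Bool, orth e 1 := by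
    intro x hx
    refine mem_iUnion.2 ⟨fun j => decide (0 ≤ x j), fun j => ?_, hx⟩
    by_cases h : 0 ≤ x j
    · simp [h, sg]
    · simp [h, sg]
      linarith
  calc volume (ball1 n 1) ≤ volume (⋃ e : Fin n → Bool, orth e 1) := measure_mono h
    _ ≤ ∑ e : Fin n → Bool, volume (orth e 1) := measure_iUnion_fintype_le _ _
    _ = _ := by
      rw [Finset.sum_congr rfl fun e _ => volume_orth e]
      simp

/-- coordinate hyperplanes are null -/
theorem volume_coord (i : Fin n) : volume {x : E n | x i = 0} = 0 := by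
  have h : {x : E n | x i = 0} =
      ((LinearMap.ker (EuclideanSpace.proj i : E n →L[ℝ] ℝ).toLinearMap : Submodule ℝ (E n)) :
        Set (E n)) := by
    ext x; simp
  rw [h]
  apply addHaar_submodule
  intro htop
  have : (EuclideanSpace.single i (1 : ℝ)) ∈
      LinearMap.ker (EuclideanSpace.proj i : E n →L[ℝ] ℝ).toLinearMap := by
    rw [htop]; trivial
  simp at this

/-- half of a cross-polytope -/
def half (i : Fin n) (r : ℝ) : Set (E n) := {x | 0 ≤ x i ∧ N1 x ≤ r}

theorem isClosed_half (i : Fin n) (r : ℝ) : IsClosed (half i r) := by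
  have h1 : IsClosed {x : E n | 0 ≤ x i} := isClosed_le continuous_const (by fun_prop)
  exact h1.inter (isClosed_le continuous_N1 continuous_const)

theorem isCompact_half (i : Fin n) (r : ℝ) : IsCompact (half i r) :=
  isCompact_of_N1_le (isClosed_half i r) fun _ hx => hx.2

theorem neg_half_volume (i : Fin n) (r : ℝ) : volume (-half i r) = volume (half i r) := by
  have := addHaar_smul (volume : Measure (E n)) (-1) (half i r)
  have h2 : (-1 : ℝ) • half i r = - half i r := by
    ext x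
    constructor
    · rintro ⟨y, hy, rfl⟩
      simpa using hy
    · intro hx
      exact ⟨-x, hx, by simp⟩
  rw [h2] at this
  rw [this]
  simp

theorem volume_half_le (i : Fin n) (r : ℝ) : 2 * volume (half i r) ≤ volume (ball1 n r) := by
  have hd : AEDisjoint volume (half i r) (-half i r) := by
    refine measure_mono_null ?_ (volume_coord i)
    rintro x ⟨h1, h2⟩
    have h3 : 0 ≤ (-x) i := h2.1
    have h4 : (-x) i = - x i := rfl
    rw [h4] at h3
    exact le_antisymm (by linarith) h1.1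
  have hm : NullMeasurableSet (-half i r) volume :=
    (isClosed_half i r).neg.measurableSet.nullMeasurableSet
  calc 2 * volume (half i r) = volume (half i r) + volume (-half i r) := by
        rw [neg_half_volume, two_mul]
    _ = volume (half i r ∪ -half i r) := (measure_union₀ hm hd).symm
    _ ≤ _ := measure_mono (by
        rintro x (hx | hx)
        · exact hx.2
        · have : N1 (-x) ≤ r := hx.2
          have h5 : N1 (-x) = N1 x := by simp [N1]
          rwa [h5] at this)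

theorem smul_half (i : Fin n) {r : ℝ} (hr : 0 < r) : r • half i 1 = half i r := by
  ext x
  rw [mem_smul_set_iff_inv_smul_mem₀ hr.ne']
  have h1 : (r⁻¹ • x) i = r⁻¹ * x i := rfl
  constructor
  · rintro ⟨h2, h3⟩
    rw [h1] at h2
    rw [N1_smul, abs_of_pos (inv_pos.2 hr)] at h3
    refine ⟨?_, ?_⟩
    · exact nonneg_of_mul_nonneg_right h2 (inv_pos.2 hr)
    · rwa [inv_mul_le_iff₀ hr, mul_one] at h3
  · rintro ⟨h2, h3⟩
    refine ⟨?_, ?_⟩
    · rw [h1]; exact mul_nonneg (inv_nonneg.2 hr.le) h2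
    · rwa [N1_smul, abs_of_pos (inv_pos.2 hr), inv_mul_le_iff₀ hr, mul_one]

theorem smul_ball1 {r : ℝ} (hr : 0 < r) : r • ball1 n 1 = ball1 n r := by
  ext x
  rw [mem_smul_set_iff_inv_smul_mem₀ hr.ne']
  unfold ball1
  simp only [mem_ofPred_eq]
  rw [N1_smul, abs_of_pos (inv_pos.2 hr), inv_mul_le_iff₀ hr, mul_one]

theorem volume_smul_set (r : ℝ) (hr : 0 < r) (s : Set (E n)) :
    volume (r • s) = ENNReal.ofReal (r ^ n) * volume s := by
  rw [addHaar_smul, finrank_E, abs_of_pos (by positivity)]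

theorem volume_half_r (i : Fin n) {r : ℝ} (hr : 0 < r) :
    volume (half i r) = ENNReal.ofReal (r ^ n) * volume (half i 1) := by
  rw [← smul_half i hr, volume_smul_set r hr]

theorem volume_ball1_r {r : ℝ} (hr : 0 < r) :
    volume (ball1 n r) = ENNReal.ofReal (r ^ n) * volume (ball1 n 1) := by
  rw [← smul_ball1 hr, volume_smul_set r hr]

/-- middle section of a cross-polytope -/
def disc (i : Fin n) (r : ℝ) : Set (E n) := {x | x i = 0 ∧ N1 x ≤ r}

theorem isCompact_disc (i : Fin n) (r : ℝ) : IsCompact (disc i r) :=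
  isCompact_of_N1_le ((isClosed_eq (by fun_prop) continuous_const).inter
    (isClosed_le continuous_N1 continuous_const)) fun _ hx => hx.2

theorem smul_disc (i : Fin n) {r : ℝ} (hr : 0 < r) : r • disc i 1 = disc i r := by
  ext x
  rw [mem_smul_set_iff_inv_smul_mem₀ hr.ne']
  have h1 : (r⁻¹ • x) i = r⁻¹ * x i := rfl
  have hr' : r⁻¹ ≠ 0 := (inv_pos.2 hr).ne'
  unfold disc
  simp only [mem_ofPred_eq]
  rw [h1, N1_smul, abs_of_pos (inv_pos.2 hr), inv_mul_le_iff₀ hr, mul_one, mul_eq_zero]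
  simp [hr']

theorem image_vadd (L : E n ≃L[ℝ] E n) (c : E n) (F : Set (E n)) :
    L '' (c +ᵥ F) = (L c) +ᵥ L '' F := by
  ext y
  constructor
  · rintro ⟨_, ⟨x, hx, rfl⟩, rfl⟩
    exact ⟨L x, ⟨x, hx, rfl⟩, by simp⟩
  · rintro ⟨_, ⟨x, hx, rfl⟩, rfl⟩
    exact ⟨c +ᵥ x, ⟨x, hx, rfl⟩, by simp⟩

theorem meas_vadd (L : E n ≃L[ℝ] E n) (c : E n) (F : Set (E n)) :
    μHE[n - 1] (L '' (c +ᵥ F)) = μHE[n - 1] (L '' F) := by
  rw [image_vadd, measure_vadd]

theorem meas_smul (L : E n ≃L[ℝ] E n) {r : ℝ} (hr : 0 < r) (F : Set (E n)) :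
    μHE[n - 1] (L '' (r • F)) = ENNReal.ofReal (r ^ (n - 1)) * μHE[n - 1] (L '' F) := by
  have h1 : L '' (r • F) = r • (L '' F) := image_smul_set (L : E n ≃L[ℝ] E n) r F
  rw [h1, euclideanHausdorffMeasure_smul₀ _ hr.ne', ENNReal.smul_def, smul_eq_mul]
  congr 1
  rw [ENNReal.ofReal, Real.toNNReal_pow hr.le]
  congr 2
  ext
  simp [abs_of_pos hr, hr.le]

theorem cone_disc (i : Fin n) : EuclideanSpace.single i (1 : ℝ) +ᵥ
    cone ((-EuclideanSpace.single i (1 : ℝ)) +ᵥ disc i 1) ⊆ half i 1 := by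
  rintro _ ⟨_, ⟨⟨r, _⟩, ⟨hr, ⟨d, hd, rfl⟩⟩, rfl⟩, rfl⟩
  simp only [vadd_eq_add] at *
  have e1 : EuclideanSpace.single i (1 : ℝ) + r • (-EuclideanSpace.single i (1 : ℝ) + d) =
      (1 - r) • EuclideanSpace.single i (1 : ℝ) + r • d := by
    rw [smul_add, smul_neg, sub_smul, one_smul]; abel
  rw [e1]
  refine ⟨?_, ?_⟩
  · have h0 : d i = 0 := hd.1
    simp [h0, hr.2]
  · refine (N1_add_le _ _).trans ?_
    rw [N1_smul, N1_smul, abs_of_nonneg hr.1, abs_of_nonneg (by linarith [hr.2])]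
    have h1 : N1 (EuclideanSpace.single i (1 : ℝ)) = 1 := by
      unfold N1
      simp [PiLp.single_apply, apply_ite abs]
    rw [h1]
    have h2 := mul_le_mul_of_nonneg_left hd.2 hr.1
    linarith

theorem meas_disc_le (L : E n ≃L[ℝ] E n) (i : Fin n) :
    μHE[n - 1] (L '' disc i 1) ≤
      ENNReal.ofReal (n * ‖M L (EuclideanSpace.single i (1 : ℝ))‖) *
      (ENNReal.ofReal |(L : E n →L[ℝ] E n).det| * volume (half i 1)) := by
  have hc : IsCompact ((-EuclideanSpace.single i (1 : ℝ)) +ᵥ disc i 1 : Set (E n)) := by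
    exact (isCompact_disc i 1).vadd _
  have h := meas_image L (F := (-EuclideanSpace.single i (1 : ℝ)) +ᵥ disc i 1)
    (u := -EuclideanSpace.single i (1 : ℝ)) hc (by simp) (by
      rintro _ ⟨d, hd, rfl⟩
      have h0 : d i = 0 := hd.1
      simp [inner_add_right, h0, EuclideanSpace.inner_single_left])
  rw [meas_vadd, map_neg, norm_neg] at h
  rw [h]
  refine mul_le_mul' le_rfl (mul_le_mul' le_rfl ?_)
  calc volume (cone ((-EuclideanSpace.single i (1 : ℝ)) +ᵥ disc i 1))
      = volume (EuclideanSpace.single i (1 : ℝ) +ᵥ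
          cone ((-EuclideanSpace.single i (1 : ℝ)) +ᵥ disc i 1)) := (measure_vadd _ _ _).symm
    _ ≤ _ := measure_mono (cone_disc i)

theorem meas_facet (hn : 0 < n) (L : E n ≃L[ℝ] E n) (e : Fin n → Bool) :
    μHE[n - 1] (L '' facet e 1) = ENNReal.ofReal (n * ‖M L (sv e)‖) *
      (ENNReal.ofReal |(L : E n →L[ℝ] E n).det| * volume (orth (fun _ : Fin n => true) 1)) := by
  rw [meas_image L (isCompact_facet e 1) (sv_ne_zero hn e) (fun x hx => by
    rw [inner_sv]; exact hx.2), cone_facet hn, volume_orth]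

theorem meas_facet_inter (hn : 0 < n) (L : E n ≃L[ℝ] E n) (e : Fin n → Bool) (j : Fin n) :
    μHE[n - 1] (L '' (facet e 1 ∩ {x | x j = 0})) = 0 := by
  have hc : IsCompact (facet e 1 ∩ {x : E n | x j = 0}) :=
    (isCompact_facet e 1).inter_right (isClosed_eq (by fun_prop) continuous_const)
  rw [meas_image L hc (sv_ne_zero hn e) (fun x hx => by rw [inner_sv]; exact hx.1.2)]
  have : volume (cone (facet e 1 ∩ {x : E n | x j = 0})) = 0 := by
    refine measure_mono_null ?_ (volume_coord j)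
    rintro _ ⟨⟨r, x⟩, ⟨_, hx⟩, rfl⟩
    have : x j = 0 := hx.2
    simp [this]
  rw [this]
  simp

end Pool.Agent.MP_8228af_gt
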