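import Mathlib
import Pool.Agent.MP_8228af_gt.Poly

set_option autoImplicit false

open MeasureTheory Measure Module Set
open scoped Pointwise ENNReal RealInnerProductSpace

namespace Pool.Agent.MP_8228af_gt

variable {n : ℕ}

theorem isOpenEmb (L : E n ≃L[ℝ] E n) : MeasurableEmbedding L :=
  L.toHomeomorph.measurableEmbedding

theorem facet_subset_frontier (e : Fin n → Bool) : facet e 1 ⊆ frontier (ball1 n 1) := by
  intro x hx
  have hN : N1 x = 1 := (N1_eq hx.1).trans hx.2
  refine ⟨subset_closure hN.le, fun hint => ?_⟩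
  -- the points `(1 + δ) x` are not in the ball
  have hc : Filter.Tendsto (fun d : ℝ => (1 + d) • x) (nhdsWithin 0 (Ioi 0)) (nhds x) := by
    have : Continuous fun d : ℝ => (1 + d) • x := by fun_prop
    have h2 := this.tendsto 0
    simp only [add_zero, one_smul] at h2
    exact h2.mono_left nhdsWithin_le_nhds
  have h1 := hc.eventually (mem_interior_iff_mem_nhds.1 hint)
  obtain ⟨d, hd1, hd2⟩ := (h1.and self_mem_nhdsWithin).exists
  have hd0 : (0 : ℝ) < d := hd2
  have h3 : N1 ((1 + d) • x) ≤ 1 := hd1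
  rw [N1_smul, hN, abs_of_pos (by linarith)] at h3
  linarith

theorem lower (hn : 0 < n) (L : E n ≃L[ℝ] E n) :
    ∑ e : Fin n → Bool, μHE[n - 1] (L '' facet e 1) ≤ μHE[n - 1] (L '' frontier (ball1 n 1)) := by
  have hd : Pairwise (Function.onFun (AEDisjoint (μHE[n - 1] : Measure (E n)))
      fun e : Fin n → Bool => L '' facet e 1) := by
    intro e e' hee
    obtain ⟨j, hj⟩ := Function.ne_iff.1 hee
    refine measure_mono_null ?_ (meas_facet_inter hn L e j)
    rintro _ ⟨⟨x, hx, rfl⟩, ⟨x', hx', hxx⟩⟩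
    have : x' = x := L.injective hxx
    subst this
    refine ⟨x', ⟨hx, ?_⟩, rfl⟩
    have h1 := hx.1 j
    have h2 := hx'.1 j
    change x' j = 0
    cases h : e j <;> cases h' : e' j <;> simp_all [sg] <;> linarith
  have hm : ∀ e : Fin n → Bool, NullMeasurableSet (L '' facet e 1) (μHE[n - 1] : Measure (E n)) :=
    fun e => ((isCompact_facet e 1).image L.continuous).measurableSet.nullMeasurableSet
  have hU := measure_iUnion₀ hd hm
  rw [tsum_fintype] at hU
  rw [← hU]
  refine measure_mono (iUnion_subset fun e => image_mono (facet_subset_frontier e))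

/-- truncated cross-polytope -/
def trunc (n : ℕ) (s t : ℝ) : Set (E n) := {x | N1 x ≤ s ∧ ∀ i, |x i| ≤ t}

theorem N1_sub (x : E n) (i : Fin n) :
    N1 (x - x i • EuclideanSpace.single i (1 : ℝ)) = N1 x - |x i| := by
  unfold N1
  rw [← Finset.add_sum_erase _ _ (Finset.mem_univ i), ← Finset.add_sum_erase _ _ (Finset.mem_univ i)]
  have h1 : (x - x i • EuclideanSpace.single i (1 : ℝ)) i = 0 := by simp
  rw [h1, abs_zero]
  have h2 : ∑ j ∈ Finset.univ.erase i, |(x - x i • EuclideanSpace.single i (1 : ℝ)) j| =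
      ∑ j ∈ Finset.univ.erase i, |x j| := by
    refine Finset.sum_congr rfl fun j hj => ?_
    have : j ≠ i := Finset.ne_of_mem_erase hj
    simp [this]
  rw [h2]
  ring

/-- large facets of the truncated cross-polytope -/
def bigF (e : Fin n → Bool) (s t : ℝ) : Set (E n) := {x | x ∈ facet e s ∧ ∀ j, sg (e j) * x j ≤ t}

theorem isClosed_trunc (s t : ℝ) : IsClosed (trunc n s t) := by
  have h1 : IsClosed {x : E n | ∀ i, |x i| ≤ t} := by
    rw [ofPred_forall]
    exact isClosed_iInter fun j => isClosed_le (by fun_prop) continuous_const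
  exact (isClosed_le continuous_N1 continuous_const).inter h1

theorem frontier_trunc_subset {s t : ℝ} :
    frontier (trunc n s t) ⊆ (⋃ e : Fin n → Bool, bigF e s t) ∪
      ⋃ i : Fin n, ((t • EuclideanSpace.single i (1 : ℝ)) +ᵥ disc i (s - t)) ∪
        (((-t) • EuclideanSpace.single i (1 : ℝ)) +ᵥ disc i (s - t)) := by
  intro x hx
  have hxm : x ∈ trunc n s t := by
    have := hx.1
    rwa [(isClosed_trunc s t).closure_eq] at this
  by_cases hi : ∃ i, |x i| = t
  · right
    obtain ⟨i, hi⟩ := hi
    refine mem_iUnion.2 ⟨i, ?_⟩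
    have hd : x - x i • EuclideanSpace.single i (1 : ℝ) ∈ disc i (s - t) := by
      refine ⟨by simp, ?_⟩
      rw [N1_sub, hi]
      linarith [hxm.1]
    rcases abs_choice (x i) with h | h
    · left
      rw [h] at hi
      refine ⟨_, hd, ?_⟩
      simp [hi]
    · right
      rw [h] at hi
      refine ⟨_, hd, ?_⟩
      simp [← hi]
  · left
    push Not at hi
    have hlt : ∀ i, |x i| < t := fun i => lt_of_le_of_ne (hxm.2 i) (hi i)
    have hN : N1 x = s := by
      by_contra hne
      have hNlt : N1 x < s := lt_of_le_of_ne hxm.1 hne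
      apply hx.2
      rw [mem_interior]
      refine ⟨{y | N1 y < s} ∩ {y | ∀ i, |y i| < t}, ?_, ?_, ⟨hNlt, hlt⟩⟩
      · rintro y ⟨h1, h2⟩
        exact ⟨le_of_lt h1, fun i => (h2 i).le⟩
      · refine (isOpen_lt continuous_N1 continuous_const).inter ?_
        have : {y : E n | ∀ i, |y i| < t} = ⋂ i, {y : E n | |y i| < t} := by
          ext y; simp
        rw [this]
        exact isOpen_iInter_of_finite fun i => isOpen_lt (by fun_prop) continuous_const
    refine mem_iUnion.2 ⟨fun j => decide (0 ≤ x j), ?_⟩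
    have hsg : ∀ j, sg (decide (0 ≤ x j)) * x j = |x j| := by
      intro j
      by_cases h : 0 ≤ x j
      · simp [h, sg, abs_of_nonneg h]
      · simp only [h, sg]
        rw [abs_of_neg (not_le.1 h)]
        simp
    refine ⟨⟨fun j => ?_, ?_⟩, fun j => ?_⟩
    · rw [hsg]; exact abs_nonneg _
    · rw [← hN]
      exact Finset.sum_congr rfl fun j _ => hsg j
    · rw [hsg]; exact (hlt j).le

theorem meas_facet_r (L : E n ≃L[ℝ] E n) (e : Fin n → Bool) {r : ℝ} (hr : 0 < r) :
    μHE[n - 1] (L '' facet e r) = ENNReal.ofReal (r ^ (n - 1)) * μHE[n - 1] (L '' facet e 1) := by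
  rw [← smul_facet hr, meas_smul L hr]

theorem meas_disc_r (L : E n ≃L[ℝ] E n) (i : Fin n) {r : ℝ} (hr : 0 < r) :
    μHE[n - 1] (L '' disc i r) = ENNReal.ofReal (r ^ (n - 1)) * μHE[n - 1] (L '' disc i 1) := by
  rw [← smul_disc i hr, meas_smul L hr]

theorem meas_facet_inter_r (hn : 0 < n) (L : E n ≃L[ℝ] E n) (e : Fin n → Bool) (j : Fin n) {r : ℝ}
    (hr : 0 < r) : μHE[n - 1] (L '' (facet e r ∩ {x | x j = 0})) = 0 := by
  have h : facet e r ∩ {x | x j = 0} = r • (facet e 1 ∩ {x | x j = 0}) := by
    rw [smul_set_inter₀ hr.ne', smul_facet hr]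
    congr 1
    ext x
    rw [mem_smul_set_iff_inv_smul_mem₀ hr.ne']
    simp [hr.ne']
  rw [h, meas_smul L hr, meas_facet_inter hn, mul_zero]

/-- the part of a facet cut off by a truncation -/
def cutF (e : Fin n → Bool) (s t : ℝ) (j : Fin n) : Set (E n) :=
  {x | x ∈ facet e s ∧ t < sg (e j) * x j}

theorem meas_cutF (hn : 0 < n) (L : E n ≃L[ℝ] E n) (e : Fin n → Bool) {s t : ℝ} (ht : 0 ≤ t)
    (hst : t < s) (j : Fin n) :
    ENNReal.ofReal ((s - t) ^ (n - 1)) * μHE[n - 1] (L '' facet e 1) ≤
      μHE[n - 1] (L '' cutF e s t j) := by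
  rw [← meas_facet_r L e (sub_pos.2 hst),
    ← meas_vadd L (-(t * sg (e j)) • EuclideanSpace.single j (1 : ℝ)) (cutF e s t j)]
  have hsub : facet e (s - t) ⊆
      ((-(t * sg (e j)) • EuclideanSpace.single j (1 : ℝ)) +ᵥ cutF e s t j) ∪
        (facet e (s - t) ∩ {x | x j = 0}) := by
    intro x hx
    by_cases hxj : x j = 0
    · right; exact ⟨hx, hxj⟩
    · left
      have hpos : 0 < sg (e j) * x j := by
        refine lt_of_le_of_ne (hx.1 j) (Ne.symm ?_)
        intro h
        rcases mul_eq_zero.1 h with h | h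
        · have := abs_sg (e j)
          rw [h] at this
          simp at this
        · exact hxj h
      refine ⟨(t * sg (e j)) • EuclideanSpace.single j (1 : ℝ) + x, ⟨⟨fun k => ?_, ?_⟩, ?_⟩, by simp⟩
      · by_cases hk : k = j
        · subst hk
          have : sg (e k) * ((t * sg (e k)) • EuclideanSpace.single k (1 : ℝ) + x) k =
              t * (sg (e k) * sg (e k)) + sg (e k) * x k := by
            simp; ring
          rw [this, sg_mul_self]
          linarith
        · have : ((t * sg (e j)) • EuclideanSpace.single j (1 : ℝ) + x) k = x k := by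
            simp [hk]
          rw [this]
          exact hx.1 k
      · have h1 : ∀ k, sg (e k) * ((t * sg (e j)) • EuclideanSpace.single j (1 : ℝ) + x) k =
            (if k = j then t else 0) + sg (e k) * x k := by
          intro k
          by_cases hk : k = j
          · subst hk
            have : sg (e k) * ((t * sg (e k)) • EuclideanSpace.single k (1 : ℝ) + x) k =
                t * (sg (e k) * sg (e k)) + sg (e k) * x k := by
              simp; ring
            rw [this, sg_mul_self]
            simp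
          · simp [hk]
        rw [Finset.sum_congr rfl fun k _ => h1 k, Finset.sum_add_distrib, hx.2]
        simp
      · have : sg (e j) * ((t * sg (e j)) • EuclideanSpace.single j (1 : ℝ) + x) j =
            t * (sg (e j) * sg (e j)) + sg (e j) * x j := by
          simp; ring
        rw [this, sg_mul_self]
        linarith
  calc μHE[n - 1] (L '' facet e (s - t))
      ≤ μHE[n - 1] (L '' (((-(t * sg (e j)) • EuclideanSpace.single j (1 : ℝ)) +ᵥ cutF e s t j) ∪
        (facet e (s - t) ∩ {x | x j = 0}))) := measure_mono (image_mono hsub)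
    _ ≤ _ := by
        rw [image_union]
        refine (measure_union_le _ _).trans ?_
        rw [meas_facet_inter_r hn L e j (sub_pos.2 hst), add_zero]

theorem meas_bigF (hn : 0 < n) (L : E n ≃L[ℝ] E n) (e : Fin n → Bool) {s t : ℝ} (ht : 0 ≤ t)
    (hst : t < s) (hs2 : s ≤ 2 * t) :
    μHE[n - 1] (L '' bigF e s t) +
        n * (ENNReal.ofReal ((s - t) ^ (n - 1)) * μHE[n - 1] (L '' facet e 1)) ≤
      ENNReal.ofReal (s ^ (n - 1)) * μHE[n - 1] (L '' facet e 1) := by
  have hs : 0 < s := lt_of_le_of_lt ht hst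
  rw [← meas_facet_r L e hs]
  have hclosed : IsClosed {x : E n | ∀ j, sg (e j) * x j ≤ t} := by
    rw [ofPred_forall]
    exact isClosed_iInter fun j => isClosed_le (by fun_prop) continuous_const
  have hmb : MeasurableSet (L '' bigF e s t) := by
    apply (isOpenEmb L).measurableSet_image.2
    exact (isClosed_facet e s).measurableSet.inter hclosed.measurableSet
  have hmc : ∀ j, MeasurableSet (L '' cutF e s t j) := by
    intro j
    apply (isOpenEmb L).measurableSet_image.2
    have h1 : IsOpen {x : E n | t < sg (e j) * x j} := isOpen_lt continuous_const (by fun_prop)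
    exact (isClosed_facet e s).measurableSet.inter h1.measurableSet
  have hdisj : Pairwise (Function.onFun Disjoint fun j => L '' cutF e s t j) := by
    intro j k hjk
    refine (disjoint_image_iff L.injective).2 ?_
    rw [Set.disjoint_left]
    rintro x ⟨hx, hj⟩ ⟨_, hk⟩
    have : sg (e j) * x j + sg (e k) * x k ≤ s := by
      rw [← hx.2]
      have := Finset.sum_le_sum_of_subset_of_nonneg (f := fun l => sg (e l) * x l)
        (Finset.subset_univ {j, k}) (fun l _ _ => hx.1 l)
      rwa [Finset.sum_pair hjk] at this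
    linarith
  have hdisj2 : Disjoint (L '' bigF e s t) (⋃ j, L '' cutF e s t j) := by
    rw [Set.disjoint_iUnion_right]
    intro j
    refine (disjoint_image_iff L.injective).2 ?_
    rw [Set.disjoint_left]
    rintro x ⟨_, hx⟩ ⟨_, hj⟩
    exact absurd (hx j) (not_le.2 hj)
  calc _ ≤ μHE[n - 1] (L '' bigF e s t) + ∑ j : Fin n, μHE[n - 1] (L '' cutF e s t j) := by
        gcongr
        calc _ = ∑ j : Fin n, ENNReal.ofReal ((s - t) ^ (n - 1)) * μHE[n - 1] (L '' facet e 1) := by
              simp
          _ ≤ _ := Finset.sum_le_sum fun j _ => meas_cutF hn L e ht hst j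
    _ = μHE[n - 1] (L '' bigF e s t) + μHE[n - 1] (⋃ j : Fin n, L '' cutF e s t j) := by
        rw [measure_iUnion hdisj hmc, tsum_fintype]
    _ = μHE[n - 1] (L '' bigF e s t ∪ ⋃ j : Fin n, L '' cutF e s t j) :=
        (measure_union hdisj2 (MeasurableSet.iUnion hmc)).symm
    _ ≤ _ := by
        refine measure_mono (union_subset (image_mono fun x hx => hx.1) (iUnion_subset fun j => ?_))
        exact image_mono fun x hx => hx.1

theorem upper (hn : 0 < n) (L : E n ≃L[ℝ] E n) {s t : ℝ} (ht : 0 ≤ t)
    (hst : t < s) (hs2 : s ≤ 2 * t) :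
    μHE[n - 1] (L '' frontier (trunc n s t)) +
        n * (ENNReal.ofReal ((s - t) ^ (n - 1)) *
          ∑ e : Fin n → Bool, μHE[n - 1] (L '' facet e 1)) ≤
      ENNReal.ofReal (s ^ (n - 1)) * (∑ e : Fin n → Bool, μHE[n - 1] (L '' facet e 1)) +
        2 * (ENNReal.ofReal ((s - t) ^ (n - 1)) * ∑ i : Fin n, μHE[n - 1] (L '' disc i 1)) := by
  have h1 : μHE[n - 1] (L '' frontier (trunc n s t)) ≤
      ∑ e : Fin n → Bool, μHE[n - 1] (L '' bigF e s t) +
        ∑ i : Fin n, 2 * (ENNReal.ofReal ((s - t) ^ (n - 1)) * μHE[n - 1] (L '' disc i 1)) := by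
    refine (measure_mono (image_mono frontier_trunc_subset)).trans ?_
    rw [image_union, image_iUnion, image_iUnion]
    refine (measure_union_le _ _).trans (add_le_add (measure_iUnion_fintype_le _ _) ?_)
    refine (measure_iUnion_fintype_le _ _).trans (Finset.sum_le_sum fun i _ => ?_)
    rw [image_union]
    refine (measure_union_le _ _).trans ?_
    rw [meas_vadd, meas_vadd, meas_disc_r L i (sub_pos.2 hst), two_mul]
  calc _ ≤ (∑ e : Fin n → Bool, μHE[n - 1] (L '' bigF e s t) +
        ∑ i : Fin n, 2 * (ENNReal.ofReal ((s - t) ^ (n - 1)) * μHE[n - 1] (L '' disc i 1))) +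
        n * (ENNReal.ofReal ((s - t) ^ (n - 1)) *
          ∑ e : Fin n → Bool, μHE[n - 1] (L '' facet e 1)) := by gcongr
    _ = (∑ e : Fin n → Bool, (μHE[n - 1] (L '' bigF e s t) +
        n * (ENNReal.ofReal ((s - t) ^ (n - 1)) * μHE[n - 1] (L '' facet e 1)))) +
        ∑ i : Fin n, 2 * (ENNReal.ofReal ((s - t) ^ (n - 1)) * μHE[n - 1] (L '' disc i 1)) := by
        rw [Finset.sum_add_distrib]
        simp only [Finset.mul_sum]
        ring
    _ ≤ (∑ e : Fin n → Bool, ENNReal.ofReal (s ^ (n - 1)) * μHE[n - 1] (L '' facet e 1)) +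
        ∑ i : Fin n, 2 * (ENNReal.ofReal ((s - t) ^ (n - 1)) * μHE[n - 1] (L '' disc i 1)) := by
        gcongr with e
        exact meas_bigF hn L e ht hst hs2
    _ = _ := by
        rw [← Finset.mul_sum, ← Finset.mul_sum, ← Finset.mul_sum]

end Pool.Agent.MP_8228af_gt
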